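import Pool.Agent.Helper76.FT.GoalsG
import Pool.Agent.Helper76.FT.GoalsB

/-!
# No sequence of tori with flux bounded below comes close to an aperiodic leaf
-/

set_option autoImplicit false

namespace Pool.Agent.Helper87.FT

open Complex Set Filter Topology
open Pool.Agent.Helper76.FT

/-- bounded sequences converge along an ultrafilter -/
theorem ultra_lim (U : Ultrafilter ℕ) (u : ℕ → ℝ) (B : ℝ) (h : ∀ k, |u k| ≤ B) :
    ∃ l : ℝ, Tendsto u U (𝓝 l) := by
  have h1 : ((U.map u : Ultrafilter ℝ) : Filter ℝ) ≤ 𝓟 (Icc (-B) B) := by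
    rw [Ultrafilter.coe_map, le_principal_iff, Filter.mem_map]
    exact univ_mem' (fun k => abs_le.1 (h k))
  obtain ⟨l, _, hl⟩ := (isCompact_Icc (a := -B) (b := B)).ultrafilter_le_nhds (U.map u) h1
  exact ⟨l, hl⟩

/-- families of positive periodic functions with uniformly Lipschitz cubes -/
structure Fam (H : ℕ → ℝ → ℝ → ℝ) (C : ℝ) : Prop where
  hC : 0 < C
  pos : ∀ k y, ∀ s ∈ Icc (0:ℝ) 1, 0 < H k y s
  lip : ∀ k x x', ∀ t ∈ Icc (0:ℝ) 1, ∀ t' ∈ Icc (0:ℝ) 1,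
    |H k x t ^ 3 - H k x' t' ^ 3| ≤ C * (|x - x'| + |t - t'|)
  per : ∀ k y (m : ℤ), ∀ s ∈ Icc (0:ℝ) 1, H k (y + m) s = H k y s

variable {H : ℕ → ℝ → ℝ → ℝ} {C : ℝ}

theorem Fam.lt_of_near (hH : Fam H C) {e : ℝ} (he : 0 < e) (k : ℕ) {y y' s s' : ℝ}
    (hs : s ∈ Icc (0:ℝ) 1) (hs' : s' ∈ Icc (0:ℝ) 1) (h1 : C * (|y - y'| + |s - s'|) ≤ e ^ 3 / 2)
    (h2 : H k y' s' < e / 2) : H k y s < e := by
  have h3 := hH.lip k y y' s hs s' hs'
  have h4 := hH.pos k y' s' hs'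
  have h5 : H k y' s' ^ 3 < (e / 2) ^ 3 := pow_lt_pow_left₀ h2 h4.le (by norm_num)
  have h6 : H k y s ^ 3 < e ^ 3 := by
    have h7 := (abs_le.1 h3).2
    have h8 : (e / 2) ^ 3 = e ^ 3 / 8 := by ring
    have h9 : 0 < e ^ 3 := by positivity
    linarith
  exact lt_of_pow_lt_pow_left₀ 3 he.le h6

theorem Fam.tendsto_of_near (hH : Fam H C) (U : Filter ℕ) {y s : ℝ} (hs : s ∈ Icc (0:ℝ) 1)
    (h : ∀ r : ℝ, 0 < r → ∀ᶠ k in U, ∃ y' : ℝ, ∃ s' ∈ Icc (0:ℝ) 1,
      |y - y'| + |s - s'| < r ∧ H k y' s' < r) :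
    Tendsto (fun k => H k y s) U (𝓝 0) := by
  rw [Metric.tendsto_nhds]
  intro e he
  have hC := hH.hC
  have hr : 0 < min (e ^ 3 / (2 * C)) (e / 2) := lt_min (by positivity) (by positivity)
  filter_upwards [h _ hr] with k hk
  obtain ⟨y', s', hs', h1, h2⟩ := hk
  rw [Real.dist_eq, sub_zero, abs_of_pos (hH.pos k y s hs)]
  refine hH.lt_of_near he k hs hs' ?_ (h2.trans_le (min_le_right _ _))
  have h3 := h1.le.trans (min_le_left _ _)
  rw [le_div_iff₀ (by positivity)] at h3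
  linarith

theorem Fam.uniform (hH : Fam H C) (U : Filter ℕ) (y v : ℝ)
    (h : ∀ s ∈ Icc (0:ℝ) 1, Tendsto (fun k => H k (y + s * v) s) U (𝓝 0)) {e : ℝ} (he : 0 < e) :
    ∀ᶠ k in U, ∀ s ∈ Icc (0:ℝ) 1, H k (y + s * v) s < e := by
  have hC := hH.hC
  obtain ⟨N, hN⟩ := exists_nat_gt (max 1 (C * (|v| + 1) / (e ^ 3 / 2)))
  have hN1 : (1:ℝ) < N := (le_max_left _ _).trans_lt hN
  have hN2 : C * (|v| + 1) / (e ^ 3 / 2) < N := (le_max_right _ _).trans_lt hN
  have hN0 : (0:ℝ) < N := by linarith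
  have h1 : ∀ᶠ k in U, ∀ i ∈ Finset.range (N + 1),
      H k (y + ((i:ℝ) / N) * v) ((i:ℝ) / N) < e / 2 := by
    rw [Filter.eventually_all_finset]
    intro i hi
    have hi' : (i:ℝ) ≤ N := by exact_mod_cast Nat.lt_succ_iff.1 (Finset.mem_range.1 hi)
    have h2 : (i:ℝ) / N ∈ Icc (0:ℝ) 1 := ⟨by positivity, by rw [div_le_one hN0]; exact hi'⟩
    exact (h _ h2).eventually_lt_const (by positivity)
  filter_upwards [h1] with k hk s hs
  set i := ⌊s * N⌋₊ with hi
  have hsN : 0 ≤ s * N := mul_nonneg hs.1 hN0.le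
  have h3 : (i:ℝ) ≤ s * N := Nat.floor_le hsN
  have h4 : s * N < i + 1 := Nat.lt_floor_add_one _
  have h5 : (i:ℝ) ≤ N := h3.trans (by nlinarith [hs.2])
  have h6 : i ∈ Finset.range (N + 1) := by
    rw [Finset.mem_range, Nat.lt_succ_iff]
    exact_mod_cast h5
  have h7 : (i:ℝ) / N ∈ Icc (0:ℝ) 1 := ⟨by positivity, by rw [div_le_one hN0]; exact h5⟩
  refine hH.lt_of_near he k hs h7 ?_ (hk i h6)
  have h8 : |s - (i:ℝ) / N| ≤ 1 / N := by
    rw [abs_of_nonneg]
    · rw [sub_le_iff_le_add, ← add_div, le_div_iff₀ hN0]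
      linarith
    · rw [sub_nonneg, div_le_iff₀ hN0]
      exact h3
  have h9 : |y + s * v - (y + (i:ℝ) / N * v)| = |s - (i:ℝ) / N| * |v| := by
    rw [← abs_mul]
    congr 1
    ring
  rw [h9]
  have h10 : |s - (i:ℝ) / N| * |v| + |s - (i:ℝ) / N| ≤ (1 / N) * (|v| + 1) := by
    have := mul_le_mul_of_nonneg_right h8 (by positivity : (0:ℝ) ≤ |v| + 1)
    linarith
  have h11 : C * (|v| + 1) < N * (e ^ 3 / 2) := by
    rwa [div_lt_iff₀ (by positivity)] at hN2
  calc C * (|s - (i:ℝ) / N| * |v| + |s - (i:ℝ) / N|) ≤ C * ((1 / N) * (|v| + 1)) :=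
        mul_le_mul_of_nonneg_left h10 hC.le
    _ = (C * (|v| + 1)) / N := by ring
    _ ≤ e ^ 3 / 2 := by
        rw [div_le_iff₀ hN0]
        linarith

theorem Fam.near_zero (hH : Fam H C) (U : Filter ℕ) (y : ℝ)
    (h : Tendsto (fun k => H k y 0) U (𝓝 0)) {e : ℝ} (he : 0 < e) :
    ∀ᶠ k in U, ∀ y' : ℝ, |y' - y| ≤ e ^ 3 / (2 * C) → H k y' 0 < e := by
  have hC := hH.hC
  filter_upwards [h.eventually_lt_const (show (0:ℝ) < e / 2 by positivity)] with k hk y' hy'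
  refine hH.lt_of_near he k (left_mem_Icc.2 zero_le_one) (left_mem_Icc.2 zero_le_one) ?_ hk
  rw [le_div_iff₀ (by positivity)] at hy'
  rw [sub_self, abs_zero, add_zero]
  linarith

/-- the limit flux function -/
theorem core (U : Ultrafilter ℕ) (hGap : GGap) (hH : Fam H C) (P : ℕ → ℝ → ℝ) (M : ℝ) (hM : 0 < M)
    (hPc : ∀ k, Continuous (P k)) (hP0 : ∀ k y, 0 ≤ P k y) (hPH : ∀ k y, P k y ≤ M * H k y 0)
    (hPM : ∀ k y, P k y ≤ M) (hPp : ∀ k y, P k (y + 1) = P k y) (cc : ℕ → ℝ)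
    (hcc : ∀ k, ∫ x in (0:ℝ)..1, P k x = cc k) (η : ℝ) (hη : 0 < η) (hcη : ∀ k, η ≤ cc k)
    (g : ℝ → ℝ) (hg : StrictMono g) (hgc : Continuous g) (hg1 : ∀ x, g (x + 1) = g x + 1)
    (hape : ∀ (n : ℕ) (k : ℤ) (x : ℝ), g^[n + 1] x ≠ x + k) (Ms : Set ℝ) (hMc : IsClosed Ms)
    (hMn : Ms.Nonempty) (hM1 : ∀ x, x ∈ Ms ↔ x + 1 ∈ Ms) (hMg : ∀ x, x ∈ Ms ↔ g x ∈ Ms)
    (hZ : ∀ y ∈ Ms, ∀ s ∈ Icc (0:ℝ) 1,
      Tendsto (fun k => H k (y + s * (g y - y)) s) U (𝓝 0))
    (e : ℕ → ℝ) (C' : ℝ) (hC' : 0 < C') (he : ∀ k, |e k| ≤ C')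
    (hflux : ∀ k, ∀ y ∈ Ms, |(∫ z in y..(g y), P k z) - e k|
      ≤ C' * ∫ s in (0:ℝ)..1, H k (y + s * (g y - y)) s) : False := by
  have hPi : ∀ k a b, IntervalIntegrable (P k) MeasureTheory.volume a b := fun k a b =>
    (hPc k).intervalIntegrable a b
  have hPabs : ∀ k y, ‖P k y‖ ≤ M := fun k y => by
    rw [Real.norm_eq_abs, abs_of_nonneg (hP0 k y)]
    exact hPM k y
  set J : ℕ → ℝ → ℝ := fun k y => ∫ x in (0:ℝ)..y, P k x with hJ
  have hJsub : ∀ k a b, J k b - J k a = ∫ x in a..b, P k x := fun k a b =>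
    intervalIntegral.integral_interval_sub_left (hPi k _ _) (hPi k _ _)
  have hJb : ∀ y k, |J k y| ≤ M * |y| := fun y k => by
    have := intervalIntegral.norm_integral_le_of_norm_le_const
      (a := (0:ℝ)) (b := y) (f := P k) (C := M) (fun x _ => hPabs k x)
    rwa [Real.norm_eq_abs, sub_zero] at this
  choose Jl hJl using fun y => ultra_lim U (fun k => J k y) (M * |y|) (hJb y)
  have hccb : ∀ k, |cc k| ≤ M := fun k => by
    have := hJb 1 k
    rw [abs_one, mul_one] at this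
    rw [← hcc k]
    exact this
  obtain ⟨m, hm⟩ := ultra_lim U cc M hccb
  obtain ⟨el, hel⟩ := ultra_lim U e C' he
  have hmη : η ≤ m := ge_of_tendsto hm (Eventually.of_forall hcη)
  have hmono : Monotone Jl := by
    intro a b hab
    refine le_of_tendsto_of_tendsto' (hJl a) (hJl b) (fun k => ?_)
    have h1 := hJsub k a b
    have h2 : 0 ≤ ∫ x in a..b, P k x := intervalIntegral.integral_nonneg hab (fun x _ => hP0 k x)
    linarith
  have hJ1 : ∀ x, Jl (x + 1) = Jl x + m := by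
    intro x
    have h1 : Tendsto (fun k => J k x + cc k) U (𝓝 (Jl x + m)) := (hJl x).add hm
    refine tendsto_nhds_unique (hJl (x + 1)) (h1.congr (fun k => ?_))
    have h2 := hJsub k x (x + 1)
    have h3 : ∫ z in x..(x + 1), P k z = cc k := by
      have hp : Function.Periodic (P k) 1 := hPp k
      rw [hp.intervalIntegral_add_eq x 0, zero_add, hcc k]
    linarith
  have hJe : ∀ x ∈ Ms, Jl (g x) = Jl x + el := by
    intro x hx
    have h1 : Tendsto (fun k => (J k (g x) - J k x) - e k) U (𝓝 ((Jl (g x) - Jl x) - el)) :=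
      ((hJl _).sub (hJl _)).sub hel
    have h2 : Tendsto (fun k => (J k (g x) - J k x) - e k) U (𝓝 0) := by
      rw [Metric.tendsto_nhds]
      intro r hr
      have h3 := hH.uniform U x (g x - x) (hZ x hx) (show 0 < r / (2 * C') by positivity)
      filter_upwards [h3] with k hk
      rw [Real.dist_eq, sub_zero, hJsub]
      have h4 := hflux k x hx
      have h5 : ‖∫ s in (0:ℝ)..1, H k (x + s * (g x - x)) s‖ ≤ (r / (2 * C')) * |1 - 0| := by
        apply intervalIntegral.norm_integral_le_of_norm_le_const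
        intro s hs
        rw [uIoc_of_le zero_le_one] at hs
        have hs' : s ∈ Icc (0:ℝ) 1 := ⟨hs.1.le, hs.2⟩
        rw [Real.norm_eq_abs, abs_of_pos (hH.pos k _ s hs')]
        exact (hk s hs').le
      rw [sub_zero, abs_one, mul_one] at h5
      have h6 : (∫ s in (0:ℝ)..1, H k (x + s * (g x - x)) s) ≤ r / (2 * C') :=
        (le_abs_self _).trans h5
      calc |(∫ z in x..(g x), P k z) - e k| ≤ C' * ∫ s in (0:ℝ)..1, H k (x + s * (g x - x)) s := h4
        _ ≤ C' * (r / (2 * C')) := mul_le_mul_of_nonneg_left h6 hC'.le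
        _ = r / 2 := by field_simp
        _ < r := by linarith
    have h3 := tendsto_nhds_unique h1 h2
    linarith
  have hJd : ∀ x ∈ Ms, HasDerivAt Jl 0 x := by
    intro x hx
    rw [hasDerivAt_iff_isLittleO, Asymptotics.isLittleO_iff]
    intro r hr
    have hC := hH.hC
    have h0 : Tendsto (fun k => H k x 0) U (𝓝 0) := by
      have := hZ x hx 0 (left_mem_Icc.2 zero_le_one)
      simpa using this
    have hrM : 0 < r / M := by positivity
    have h1 := hH.near_zero U x h0 hrM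
    have h2 : 0 < (r / M) ^ 3 / (2 * C) := by positivity
    filter_upwards [Metric.closedBall_mem_nhds x h2] with y hy
    rw [Metric.mem_closedBall, Real.dist_eq] at hy
    have h3 : |Jl y - Jl x| ≤ r * |y - x| := by
      have h4 : Tendsto (fun k => |J k y - J k x|) U (𝓝 |Jl y - Jl x|) :=
        ((hJl y).sub (hJl x)).abs
      refine le_of_tendsto h4 ?_
      filter_upwards [h1] with k hk
      rw [hJsub]
      have h5 : ‖∫ z in x..y, P k z‖ ≤ r * |y - x| := by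
        apply intervalIntegral.norm_integral_le_of_norm_le_const
        intro z hz
        have h6 : |z - x| ≤ |y - x| := by
          have := Set.abs_sub_left_of_mem_uIcc (uIoc_subset_uIcc hz)
          exact this
        have h7 := hk z (h6.trans hy)
        rw [Real.norm_eq_abs, abs_of_nonneg (hP0 k z)]
        calc P k z ≤ M * H k z 0 := hPH k z
          _ ≤ M * (r / M) := mul_le_mul_of_nonneg_left h7.le hM.le
          _ = r := by field_simp
      exact h5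
    simpa using h3
  have := hGap g Ms Jl m el hg hgc hg1 hape hMc hMn hM1 hMg hmono hJ1 hJe hJd
  linarith

/-! ### The limit set -/

/-- limit set modulo `1` of a two-sided sequence in the direction `σ` -/
def Lim (σ : ℤ) (o : ℤ → ℝ) : Set ℝ :=
  {y | ∀ ε : ℝ, 0 < ε → ∀ N : ℤ, ∃ n : ℤ, N ≤ σ * n ∧ ∃ m : ℤ, |o n + m - y| < ε}

theorem Lim_closed (σ : ℤ) (o : ℤ → ℝ) : IsClosed (Lim σ o) := by
  refine isClosed_of_closure_subset (fun y hy => ?_)
  rw [Metric.mem_closure_iff] at hy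
  intro ε hε N
  obtain ⟨z, hz, hyz⟩ := hy (ε / 2) (by positivity)
  obtain ⟨n, hn, m, hm⟩ := hz (ε / 2) (by positivity) N
  refine ⟨n, hn, m, ?_⟩
  rw [Real.dist_eq, abs_sub_comm] at hyz
  calc |o n + m - y| = |(o n + m - z) + (z - y)| := by ring_nf
    _ ≤ |o n + m - z| + |z - y| := abs_add_le _ _
    _ < ε := by linarith

theorem Lim_nonempty (σ : ℤ) (hσ : σ = 1 ∨ σ = -1) (o : ℤ → ℝ) : (Lim σ o).Nonempty := by
  have h1 : ∀ N : ℕ, Int.fract (o (σ * N)) ∈ Icc (0:ℝ) 1 := fun N =>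
    ⟨Int.fract_nonneg _, (Int.fract_lt_one _).le⟩
  obtain ⟨y, _, φ, hφ, hy⟩ := isCompact_Icc.tendsto_subseq h1
  refine ⟨y, fun ε hε N => ?_⟩
  rw [Metric.tendsto_atTop] at hy
  obtain ⟨j0, hj0⟩ := hy ε hε
  set j := max j0 N.toNat with hj
  have h2 := hj0 j (le_max_left _ _)
  have h3 : N ≤ (φ j : ℤ) := by
    have h4 : j ≤ φ j := hφ.id_le j
    have h5 : N.toNat ≤ j := le_max_right _ _
    omega
  refine ⟨σ * φ j, ?_, -⌊o (σ * φ j)⌋, ?_⟩
  · rcases hσ with h | h <;> rw [h] <;> linarith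
  · rw [Real.dist_eq] at h2
    have h6 : (Int.fract (o (σ * ((φ j : ℕ) : ℤ))) : ℝ)
        = o (σ * φ j) + ((-⌊o (σ * φ j)⌋ : ℤ) : ℝ) := by
      push_cast
      rw [← sub_eq_add_neg]
      rfl
    rw [← h6]
    exact h2

theorem Lim_shift (σ : ℤ) (o : ℤ → ℝ) (x : ℝ) : x ∈ Lim σ o ↔ x + 1 ∈ Lim σ o := by
  constructor
  · intro hx ε hε N
    obtain ⟨n, hn, m, hm⟩ := hx ε hε N
    refine ⟨n, hn, m + 1, ?_⟩
    push_cast
    have : o n + (m + 1) - (x + 1) = o n + m - x := by ring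
    rwa [this]
  · intro hx ε hε N
    obtain ⟨n, hn, m, hm⟩ := hx ε hε N
    refine ⟨n, hn, m - 1, ?_⟩
    push_cast
    have : o n + (m - 1) - x = o n + m - (x + 1) := by ring
    rwa [this]

theorem Lim_map (σ : ℤ) (hσ : σ = 1 ∨ σ = -1) (o : ℤ → ℝ) (f : ℝ → ℝ) (hf : Continuous f) (d : ℤ)
    (hd : d = 1 ∨ d = -1) (h : ∀ n m : ℤ, f (o n + m) = o (n + d) + m) {y : ℝ}
    (hy : y ∈ Lim σ o) : f y ∈ Lim σ o := by
  intro ε hε N
  obtain ⟨ε', hε', h1⟩ := Metric.continuousAt_iff.1 hf.continuousAt ε hε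
  obtain ⟨n, hn, m, hm⟩ := hy ε' hε' (N + 1)
  refine ⟨n + d, ?_, m, ?_⟩
  · rcases hσ with h' | h' <;> rcases hd with h'' | h'' <;> rw [h'] at hn ⊢ <;> rw [h''] <;>
      linarith
  · have h2 := h1 (x := o n + m) (by rw [Real.dist_eq]; exact hm)
    rwa [h, Real.dist_eq] at h2

/-- a strand passes near all points of the world line -/
theorem strand_points (S : Sys) (w : ℂ → ℝ → ℂ) (Y x r : ℝ) (T₀ T₁ : ℤ)
    (h : Strand S w Y x r T₀ T₁) (n : ℤ) (h0 : T₀ ≤ n) (h1 : n + 1 ≤ T₁) (s : ℝ)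
    (hs0 : 0 ≤ s) (hs1 : s < 1) :
    ∃ y' : ℝ, |y' - (S.orb Y x n + s * S.vel Y x n)| < r ∧ (w (y' : ℂ) s).im < r := by
  obtain ⟨γ, hγ, hγ0, hγ1, hγn⟩ := h
  have hc : ContinuousOn (fun σ => (γ σ).2) (Icc (0:ℝ) 1) := continuous_snd.comp_continuousOn hγ
  have h2 : (n:ℝ) + s ∈ Icc ((fun σ => (γ σ).2) 0) ((fun σ => (γ σ).2) 1) := by
    simp only [hγ0, hγ1]
    have h3 : (T₀:ℝ) ≤ n := by exact_mod_cast h0
    have h4 : (n:ℝ) + 1 ≤ T₁ := by exact_mod_cast h1
    exact ⟨by linarith, by linarith⟩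
  obtain ⟨σ, hσ, hσ'⟩ := intermediate_value_Icc zero_le_one hc h2
  simp only at hσ'
  have h5 := (hγn σ hσ).2.2
  unfold Near wt at h5
  have h6 : ⌊(γ σ).2⌋ = n := by
    rw [hσ', Int.floor_eq_iff]
    exact ⟨by linarith, by linarith⟩
  have h7 : Int.fract (γ σ).2 = s := by
    unfold Int.fract
    rw [h6, hσ']
    ring
  rw [h6, h7] at h5
  refine ⟨(γ σ).1, h5.1, ?_⟩
  have h8 := (Complex.abs_im_le_norm (w ((γ σ).1 : ℂ) s - ((S.vel Y x n : ℝ) : ℂ))).trans_lt h5.2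
  rw [Complex.sub_im, Complex.ofReal_im, sub_zero] at h8
  exact (le_abs_self _).trans_lt h8

theorem ft_ape (hReg : GReg) (hTorP : GTorP) (hHeight : GHeight) (hFlux : GFlux)
    (hStrand : GStrand) (hGap : GGap) : GApe := by
  intro S hS
  obtain ⟨δ₁, C, hδ₁, hC, hHt⟩ := hHeight S hS
  refine ⟨min δ₁ (S.r / 2), lt_min hδ₁ (half_pos hS.hr), ?_⟩
  intro Y hY hape η x hη δ ρ w c hδ hw hc q t ht hqt hwt
  have hδ1 : δ ≤ δ₁ := hδ.trans (min_le_left _ _)
  have hδr : δ < S.r := lt_of_le_of_lt (hδ.trans (min_le_right _ _)) (half_lt_self hS.hr)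
  have h0m : (0:ℝ) ∈ Icc (0:ℝ) 1 := left_mem_Icc.2 zero_le_one
  obtain ⟨_, h2, _, _, ⟨B, hB⟩, _, _, _, _, h10, _, h12, _⟩ := hReg S hS
  obtain ⟨hgm, hgc, _, hgic, hgx⟩ := h10 Y hY
  have hV : ∀ y, |S.V Y y 0| ≤ B := fun y => hB 0 h0m _ (h2 0 h0m y Y hY)
  have hgV : ∀ y, S.g Y y - y = S.V Y y 0 := fun y => by
    unfold Sys.g
    ring
  have hstr : ∀ (k : ℕ) (y : ℝ), (y : ℂ) ∈ Str (ρ k) := by
    intro k y
    change |(y : ℂ).im| < ρ k
    rw [Complex.ofReal_im, abs_zero]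
    exact (hw k).hρ
  set H : ℕ → ℝ → ℝ → ℝ := fun k y s => (w k (y:ℂ) s).im with hHdef
  have hFam : Fam H C := by
    refine ⟨hC, fun k y s hs => ((hw k).pos y s hs).1, ?_, ?_⟩
    · intro k x x' t ht t' ht'
      exact (hHt δ (ρ k) (w k) (c k) hδ1 (hw k)).1 x x' t ht t' ht'
    · intro k y m s hs
      have hp : Function.Periodic (fun y : ℝ => H k y s) 1 := by
        intro y
        change (w k ((y + 1 : ℝ) : ℂ) s).im = (w k (y : ℂ) s).im
        push_cast
        rw [(hw k).sh.per _ (hstr k y) s hs]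
      have := hp.int_mul m y
      simpa using this
  obtain ⟨C', hC', hfl⟩ := hFlux S hS B
  choose e he hefl using fun k => hfl δ (ρ k) (w k) (c k) (hw k)
  obtain ⟨k0, M, hk0, hM, htp⟩ := hTorP S hS
  set P : ℕ → ℝ → ℝ := fun k y => (S.p 0 (y : ℂ) (w k (y : ℂ) 0)).im with hPdef
  have hpc : ∀ k, Continuous (fun y : ℝ => S.p 0 (y : ℂ) (w k (y : ℂ) 0)) := by
    intro k
    have h3 := (htp δ (ρ k) (w k) (c k) (hw k)).1.cont
    exact h3.comp_continuous (f := fun y : ℝ => ((y : ℂ), (0 : ℝ))) (by fun_prop)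
      (fun y => ⟨hstr k y, h0m⟩)
  have hPc : ∀ k, Continuous (P k) := fun k => Complex.continuous_im.comp (hpc k)
  have hPb : ∀ k y, k0 * H k y 0 ≤ P k y ∧ P k y ≤ M * H k y 0 ∧ P k y ≤ M := by
    intro k y
    have h3 := (htp δ (ρ k) (w k) (c k) (hw k)).2.2.2.2.2.2 y 0 h0m
    exact ⟨h3.1, h3.2.1, (le_abs_self _).trans ((Complex.abs_im_le_norm _).trans h3.2.2.2.1)⟩
  have hP0 : ∀ k y, 0 ≤ P k y := fun k y =>
    le_trans (mul_nonneg hk0.le (hFam.pos k y 0 h0m).le) (hPb k y).1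
  have hPp : ∀ k y, P k (y + 1) = P k y := by
    intro k y
    have h3 := (htp δ (ρ k) (w k) (c k) (hw k)).1.per (y : ℂ) (hstr k y) 0 h0m
    simp only [hPdef]
    push_cast
    rw [h3]
  have hcc : ∀ k, ∫ x in (0:ℝ)..1, P k x = (c k).im := by
    intro k
    have h3 := (htp δ (ρ k) (w k) (c k) (hw k)).2.2.2.2.2.1 0 h0m
    have h4 := Complex.imCLM.intervalIntegral_comp_comm ((hpc k).intervalIntegrable
      (μ := MeasureTheory.volume) 0 1)
    rw [h3] at h4
    simpa using h4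
  set U : Ultrafilter ℕ := hyperfilter ℕ with hU
  have hUt : (U : Filter ℕ) ≤ atTop := Nat.hyperfilter_le_atTop
  have hSt : ∀ T : ℤ, 2 ≤ T → ∀ r : ℝ, 0 < r → (∀ᶠ k in (U : Filter ℕ), Strand S (w k) Y x r 1 T) ∨
      (∀ᶠ k in (U : Filter ℕ), Strand S (w k) Y x r (-T) 0) := by
    intro T hT r hr
    rw [← Ultrafilter.eventually_or]
    apply hUt
    obtain ⟨ε, hε, h3⟩ := hStrand S hS Y hY x T r hT hr
    rw [Metric.tendsto_nhds] at hqt hwt
    filter_upwards [hqt ε hε, hwt ε hε] with k hk1 hk2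
    refine h3 δ (ρ k) (w k) (c k) hδr (hw k) (q k) (t k) (ht k) ?_ ?_
    · rw [Real.dist_eq] at hk1
      have : q k - (x + t k * S.V Y x 0) = q k - t k * S.V Y x 0 - x := by ring
      rwa [this]
    · rwa [dist_eq_norm] at hk2
  have key : ∃ σ : ℤ, (σ = 1 ∨ σ = -1) ∧ ∀ n : ℤ, 1 ≤ σ * n → ∀ r : ℝ, 0 < r →
      ∀ᶠ k in (U : Filter ℕ), ∀ s : ℝ, 0 ≤ s → s < 1 →
        ∃ y' : ℝ, |y' - (S.orb Y x n + s * S.vel Y x n)| < r ∧ H k y' s < r := by
    by_cases hF : ∀ T : ℤ, ∀ r : ℝ, 2 ≤ T → 0 < r → ∀ᶠ k in (U : Filter ℕ),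
        ∀ n : ℤ, 1 ≤ n → n + 1 ≤ T → ∀ s : ℝ, 0 ≤ s → s < 1 →
          ∃ y' : ℝ, |y' - (S.orb Y x n + s * S.vel Y x n)| < r ∧ H k y' s < r
    · refine ⟨1, Or.inl rfl, fun n hn r hr => ?_⟩
      rw [one_mul] at hn
      filter_upwards [hF (n + 2) r (by omega) hr] with k hk
      exact hk n hn (by omega)
    · push Not at hF
      obtain ⟨T0, r0, hT0, hr0, hF⟩ := hF
      refine ⟨-1, Or.inr rfl, fun n hn r hr => ?_⟩
      have hn' : n ≤ -1 := by omega
      have hr1 : 0 < min r0 r := lt_min hr0 hr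
      have hT1 : 2 ≤ max T0 (-n) := hT0.trans (le_max_left _ _)
      rcases hSt (max T0 (-n)) hT1 (min r0 r) hr1 with h | h
      · exfalso
        obtain ⟨k, ⟨m, hm1, hm2, s, hs0, hs1, hk1⟩, hk2⟩ := (Filter.Eventually.and hF h).exists
        have h3 : Strand S (w k) Y x (min r0 r) ((1 : ℤ) : ℝ) ((max T0 (-n) : ℤ) : ℝ) := by
          simpa using hk2
        obtain ⟨y', hy1, hy2⟩ := strand_points S (w k) Y x _ 1 _ h3 m hm1
          (hm2.trans (le_max_left _ _)) s hs0 hs1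
        have := hk1 y' (hy1.trans_le (min_le_left _ _))
        exact absurd (hy2.trans_le (min_le_left _ _)) (not_lt.2 this)
      · filter_upwards [h] with k hk s hs0 hs1
        have h3 : Strand S (w k) Y x (min r0 r) ((-(max T0 (-n)) : ℤ) : ℝ) ((0 : ℤ) : ℝ) := by
          have h4 : ((-(max T0 (-n)) : ℤ) : ℝ) = -((max T0 (-n) : ℤ) : ℝ) := by push_cast; rfl
          rw [h4, Int.cast_zero]
          exact hk
        obtain ⟨y', hy1, hy2⟩ := strand_points S (w k) Y x _ _ 0 h3 n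
          (by have := le_max_right T0 (-n); omega) (by omega) s hs0 hs1
        exact ⟨y', hy1.trans_le (min_le_right _ _), hy2.trans_le (min_le_right _ _)⟩
  obtain ⟨σ, hσ, hpt⟩ := key
  -- the points of the world line
  have hT : ∀ n : ℤ, 1 ≤ σ * n → ∀ s ∈ Icc (0:ℝ) 1,
      Tendsto (fun k => H k (S.orb Y x n + s * S.vel Y x n) s) (U : Filter ℕ) (𝓝 0) := by
    intro n hn s hs
    refine hFam.tendsto_of_near _ hs (fun r hr => ?_)
    set v := S.vel Y x n
    set d := r / (8 * (|v| + 1)) with hd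
    have hd0 : 0 < d := by positivity
    set s' := max 0 (s - d) with hs'
    have hs'0 : 0 ≤ s' := le_max_left _ _
    have hs's : s' ≤ s := max_le hs.1 (by linarith)
    have hs'1 : s' < 1 := max_lt one_pos (by linarith [hs.2])
    have hss : |s - s'| ≤ d := by
      rw [abs_of_nonneg (by linarith)]
      have := le_max_right 0 (s - d)
      linarith
    filter_upwards [hpt n hn (r / 4) (by positivity)] with k hk
    obtain ⟨y', hy1, hy2⟩ := hk s' hs'0 hs'1
    refine ⟨y', s', ⟨hs'0, hs'1.le⟩, ?_, by linarith⟩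
    have h3 : |S.orb Y x n + s * v - y'| ≤ |s - s'| * |v| + r / 4 := by
      have h4 : S.orb Y x n + s * v - y' = (s - s') * v + -(y' - (S.orb Y x n + s' * v)) := by ring
      rw [h4]
      refine (abs_add_le _ _).trans ?_
      rw [abs_mul, abs_neg]
      linarith
    have h5 : |s - s'| * |v| + |s - s'| ≤ d * (|v| + 1) := by
      have := mul_le_mul_of_nonneg_right hss (by positivity : (0:ℝ) ≤ |v| + 1)
      linarith
    have h6 : d * (|v| + 1) = r / 8 := by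
      rw [hd]
      have : |v| + 1 ≠ 0 := by positivity
      field_simp
    linarith
  -- integer shifts
  have hg1 : ∀ x, S.g Y (x + 1) = S.g Y x + 1 := fun x => (hgx x).2.2.1
  have hgm' : ∀ (y : ℝ) (m : ℤ), S.g Y (y + m) = S.g Y y + m := by
    intro y m
    have h3 : Function.Periodic (fun y => S.g Y y - y) 1 := by
      intro y
      simp only [hg1]
      ring
    have h4 := h3.int_mul m y
    simp only [mul_one] at h4
    linarith
  have hgim' : ∀ (y : ℝ) (m : ℤ), S.gi Y (y + m) = S.gi Y y + m := by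
    intro y m
    apply hgm.injective
    rw [(hgx _).1, hgm', (hgx _).1]
  have horb := fun n => h12 Y hY x n
  set Ms := Lim σ (S.orb Y x) with hMs
  have hZ : ∀ y ∈ Ms, ∀ s ∈ Icc (0:ℝ) 1,
      Tendsto (fun k => H k (y + s * (S.g Y y - y)) s) (U : Filter ℕ) (𝓝 0) := by
    intro y hy s hs
    refine hFam.tendsto_of_near _ hs (fun r hr => ?_)
    obtain ⟨ε', hε', h3⟩ := Metric.continuousAt_iff.1 (hgc.continuousAt (x := y)) (r / 2)
      (half_pos hr)
    obtain ⟨n, hn, m, hm⟩ := hy (min ε' (r / 2)) (lt_min hε' (half_pos hr)) 1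
    have h4 := h3 (x := S.orb Y x n + m) (by
      rw [Real.dist_eq]
      exact hm.trans_le (min_le_left _ _))
    rw [Real.dist_eq] at h4
    filter_upwards [(hT n hn s hs).eventually_lt_const hr] with k hk
    refine ⟨S.orb Y x n + s * S.vel Y x n + m, s, hs, ?_, ?_⟩
    · have h5 : S.vel Y x n = S.g Y (S.orb Y x n + m) - (S.orb Y x n + m) := by
        rw [hgm']
        have := (horb n).1
        have := (horb n).2.2.1
        linarith
      rw [sub_self, abs_zero, add_zero, h5]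
      have h6 : y + s * (S.g Y y - y)
          - (S.orb Y x n + s * (S.g Y (S.orb Y x n + m) - (S.orb Y x n + m)) + m)
          = (1 - s) * (-(S.orb Y x n + m - y)) + s * (-(S.g Y (S.orb Y x n + m) - S.g Y y)) := by
        ring
      rw [h6]
      refine lt_of_le_of_lt (abs_add_le _ _) ?_
      rw [abs_mul, abs_mul, abs_neg, abs_neg, abs_of_nonneg hs.1,
        abs_of_nonneg (sub_nonneg.2 hs.2)]
      have h7 : |S.orb Y x n + m - y| < r / 2 := hm.trans_le (min_le_right _ _)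
      have h8 := hs.1
      have h9 := hs.2
      have h10 := abs_nonneg (S.orb Y x n + m - y)
      have h11 := abs_nonneg (S.g Y (S.orb Y x n + m) - S.g Y y)
      nlinarith
    · rw [hFam.per k _ m s hs]
      exact hk
  refine core U hGap hFam P M hM hPc hP0 (fun k y => (hPb k y).2.1) (fun k y => (hPb k y).2.2) hPp
    (fun k => (c k).im) hcc η hη hc (S.g Y) hgm hgc hg1 hape Ms (Lim_closed _ _)
    (Lim_nonempty σ hσ _) (Lim_shift σ _) ?_ hZ e C' hC' he ?_
  · intro y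
    constructor
    · intro hy
      refine Lim_map σ hσ _ (S.g Y) hgc 1 (Or.inl rfl) (fun n m => ?_) hy
      rw [hgm', (horb n).1]
    · intro hy
      have h3 := Lim_map σ hσ _ (S.gi Y) hgic (-1) (Or.inr rfl) (fun n m => ?_) hy
      · rwa [(hgx y).2.1] at h3
      · rw [hgim']
        have h4 := (horb (n + -1)).2.1
        rw [neg_add_cancel_right] at h4
        rw [h4]
  · intro k y _
    have h3 := hefl k y (S.V Y y 0) (hV y)
    rw [hgV]
    exact h3

end Pool.Agent.Helper87.FT
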